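import Pool.Agent.H9.DegGrowth.Orbit

/-!
# A rational self-map of projective three-space whose degrees grow faster than the cube
-/

namespace Pool.Agent.Results.MP_55ef7c_ag.DegreeGrowthBeyondCube

open Pool.Agent.H9.DegGrowth

/-- The answer to Q1 is no. More precisely, over every field of characteristic zero there is a
dominant rational self-map `f` of `P^3` such that for no `l ≤ 3` and no real number `δ` (in
particular not for the dynamical degree) the degrees of the iterates are comparable to
`n^l δ^n`. -/
theorem result :
    ¬ DegreeGrowthConjecture ∧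
    ∀ (K : Type) [Field K] [CharZero K],
      ∃ (d : ℕ) (f : Fin (3 + 1) → MvPolynomial (Fin (3 + 1)) K), IsDominantMap d f ∧
        ∀ l : ℕ, l ≤ 3 → ∀ δ : ℝ,
          ¬ Comparable (fun n => degIter f n) (fun n => (n : ℝ) ^ l * δ ^ n) :=
  ⟨not_conj, fun K _ _ => main K⟩

end Pool.Agent.Results.MP_55ef7c_ag.DegreeGrowthBeyondCube
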